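import Pool.Agent.P.MP_dceaed_al.Core

set_option autoImplicit false

namespace Pool.Agent.Results.MP_dceaed_al.BoundedRange

open Quaternion Pool.Agent.P.MP_dceaed_al

/-- The numerical range of `A` with respect to `φ` at level `α`. -/
def numRange (φ : ℍ[ℝ] →ₗ[ℝ] ℍ[ℝ]) (α : ℍ[ℝ]) {n : ℕ} (A : Matrix (Fin n) (Fin n) ℍ[ℝ]) :
    Set ℍ[ℝ] :=
  {w | ∃ x : Fin n → ℍ[ℝ], ∑ i, φ (x i) * x i = α ∧ w = ∑ i, ∑ j, φ (x i) * A i j * x j}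

lemma bounded_iff (φ : ℍ[ℝ] →ₗ[ℝ] ℍ[ℝ]) (α : ℍ[ℝ]) {n : ℕ} (A : Matrix (Fin n) (Fin n) ℍ[ℝ]) :
    Bornology.IsBounded (numRange φ α A) ↔
      ∃ M : ℝ, ∀ x, form φ 1 x x = α → ‖form φ A x x‖ ≤ M := by
  rw [isBounded_iff_forall_norm_le]
  refine exists_congr fun M => ⟨fun h x hx => h _ ⟨x, by rw [← form_one, hx], rfl⟩, ?_⟩
  rintro h w ⟨x, hx, rfl⟩
  exact h x (by rw [form_one, hx])

theorem result (φ : ℍ[ℝ] →ₗ[ℝ] ℍ[ℝ]) (hmul : ∀ x y, φ (x * y) = φ y * φ x)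
    (hinv : ∀ x, φ (φ x) = x) (hns : ∃ x, φ x ≠ star x) (α : ℍ[ℝ]) (hα : φ α = α) (_hα0 : α ≠ 0) :
    (∀ A : Matrix (Fin 1) (Fin 1) ℍ[ℝ], Bornology.IsBounded (numRange φ α A)) ∧
    (∀ A : Matrix (Fin 2) (Fin 2) ℍ[ℝ], Bornology.IsBounded (numRange φ α A) ↔
      ∃ (a b : ℝ) (s t : ℍ[ℝ]), φ s = -s ∧ φ t = -t ∧
        A = !![(a : ℍ[ℝ]) + s, (b : ℍ[ℝ]) + t; -(b : ℍ[ℝ]) + t, (a : ℍ[ℝ]) - s]) ∧
    (∀ n : ℕ, 3 ≤ n → ∀ A : Matrix (Fin n) (Fin n) ℍ[ℝ], Bornology.IsBounded (numRange φ α A) ↔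
      ∃ a : ℝ, A = a • (1 : Matrix (Fin n) (Fin n) ℍ[ℝ])) := by
  have h : IsInv φ := ⟨hmul, hinv⟩
  obtain ⟨q, r, hq, hr, hr0, hqq, hrr, hφ⟩ := h.exists_units hns
  refine ⟨fun A => ?_, fun A => ?_, fun n hn A => ?_⟩
  · rw [bounded_iff]
    refine ⟨‖A 0 0‖ * ‖α‖, fun x hx => ?_⟩
    rw [bound_one (h.skew_pure hq) hqq hφ, hx]
  · rw [bounded_iff]
    constructor
    · rintro ⟨M, hM⟩
      obtain ⟨a, b, s, t, hs, ht, e1, e2, e3, e4⟩ := pair_form h hq hr hr0 hqq hrr hφ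
        (fun y k hk hy => null_zero h hq hqq hα hM hk hy) (k := 0) (l := 1) (by decide)
      refine ⟨a, b, s, t, hs, ht, ?_⟩
      rw [← e1, ← e2, ← e3, ← e4]
      exact Matrix.eta_fin_two A
    · rintro ⟨a, b, s, t, hs, ht, rfl⟩
      obtain ⟨C, hC⟩ := bound_two h hq hqq hφ a b hs ht
      exact ⟨C * ‖α‖, fun x hx => by rw [← hx]; exact hC x⟩
  · rw [bounded_iff]
    constructor
    · rintro ⟨M, hM⟩
      exact scalar_form h hq hr hr0 hqq hrr hφ hn fun y k hk hy => null_zero h hq hqq hα hM hk hy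
    · rintro ⟨a, rfl⟩
      exact ⟨‖a • α‖, fun x hx => by rw [form_scalar, hx]⟩

end Pool.Agent.Results.MP_dceaed_al.BoundedRange
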